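import Pool.Agent.Q205.CP.Main

/-!
# Cohesive powers of field extensions with unbounded degrees are transcendental

Let `K / F` be a computable extension of computable fields whose degrees `[F(x) : F]`, `x ∈ K`, are
unbounded. There is a computable sequence of elements of `K` whose degrees over `F` tend to infinity,
and its class in the cohesive power `∏_C K` is, for every cohesive set `C`, transcendental over
`∏_C F`. No hypothesis (separability, computability of the degrees) is needed.
-/

set_option autoImplicit false

namespace Pool.Agent.Results.MP_8df50c_lc.AlwaysTranscendental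

open Pool.Agent.Q205.CP Polynomial IntermediateField Filter

/-- The negative answer to Q1. -/
theorem result {F K : Type} [Field F] [Field K] [Algebra F K] (P : CompField F) (Q : CompField K)
    (h : CompEmb P Q) (hunb : ∀ n : ℕ, ∃ x : K, (n : Cardinal) < Module.rank F F⟮x⟯) :
    ∃ x : ℕ → K, (Computable fun i => Q.code (x i)) ∧
      (∀ n : ℕ, ∀ᶠ i in atTop, (n : Cardinal) < Module.rank F F⟮x i⟯) ∧
      ∀ C : Set ℕ, Cohesive C → IsField (Power P C) ∧ IsField (Power Q C) ∧
        ∃ y : Power Q C, y.1 = (x : (ae C).Germ K) ∧
          ∀ p : (Power P C)[X], p ≠ 0 → p.eval₂ (powerMap h C) y ≠ 0 := by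
  obtain ⟨x, h1, h2, h3⟩ := main P Q h hunb
  exact ⟨x, h1, h2, fun C hC => ⟨isField_power P hC, isField_power Q hC, h3 C hC.1⟩⟩

end Pool.Agent.Results.MP_8df50c_lc.AlwaysTranscendental
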